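import Mathlib

set_option autoImplicit false

/-!
# MP_8c8deb_an: uniform bounds for matrix products with chosen factors

The assertion of Q1 (condition (H) implies a uniform bound) is true for `1 × 1` matrices and false for
`d × d` matrices for every `d ≥ 2`, for every norm.

The counterexample for `d = 2`: `𝒜 = {X, Y}` with `X = diag (2, 1)`, `Y e₁ = 2 e₀`, `Y e₀ = 0`, and
`ℬ = {1, K}` with `K e₀ = K e₁ = e₁`. In dimension `d > 2` the matrices `X`, `Y`, `K` are extended by
zero.
-/

namespace Pool.Agent.Results.MP_8c8deb_an.NotUniform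

/-- The product `P_n = A_n B_n ⋯ A_1 B_1`; the sequences are indexed from `0`, so that `A k` is
`A_{k+1}` and `B k` is `B_{k+1}`. -/
noncomputable def prodAB {d : ℕ} (A B : ℕ → Matrix (Fin d) (Fin d) ℝ) :
    ℕ → Matrix (Fin d) (Fin d) ℝ
  | 0 => 1
  | n + 1 => A n * B n * prodAB A B n

/-- Condition (H): for every sequence `A` in `𝒜` there is a sequence `B` in `ℬ` such that the norms
`N (P_n)`, `n ≥ 1`, are bounded. -/
def CondH {d : ℕ} (N : Seminorm ℝ (Matrix (Fin d) (Fin d) ℝ))
    (SA SB : Set (Matrix (Fin d) (Fin d) ℝ)) : Prop :=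
  ∀ A : ℕ → Matrix (Fin d) (Fin d) ℝ, (∀ n, A n ∈ SA) →
    ∃ B : ℕ → Matrix (Fin d) (Fin d) ℝ, (∀ n, B n ∈ SB) ∧
      ∃ C : ℝ, ∀ n : ℕ, 1 ≤ n → N (prodAB A B n) ≤ C

/-- The uniform conclusion of Q1: one constant `C > 0` for all sequences `A` in `𝒜`. -/
def UniformBound {d : ℕ} (N : Seminorm ℝ (Matrix (Fin d) (Fin d) ℝ))
    (SA SB : Set (Matrix (Fin d) (Fin d) ℝ)) : Prop :=
  ∃ C : ℝ, 0 < C ∧ ∀ A : ℕ → Matrix (Fin d) (Fin d) ℝ, (∀ n, A n ∈ SA) →
    ∃ B : ℕ → Matrix (Fin d) (Fin d) ℝ, (∀ n, B n ∈ SB) ∧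
      ∀ n : ℕ, 1 ≤ n → N (prodAB A B n) ≤ C

section Counterexample

variable {d : ℕ} (i j : Fin d)

/-- `X = diag (2, 1)` -/
noncomputable def mX : Matrix (Fin d) (Fin d) ℝ := Matrix.single i i 2 + Matrix.single j j 1
/-- `Y e_j = 2 e_i` -/
noncomputable def mY : Matrix (Fin d) (Fin d) ℝ := Matrix.single i j 2
/-- `K e_i = K e_j = e_j` -/
noncomputable def mK : Matrix (Fin d) (Fin d) ℝ := Matrix.single j i 1 + Matrix.single j j 1

theorem single_mul_entry (a b : Fin d) (c : ℝ) (M : Matrix (Fin d) (Fin d) ℝ) (p q : Fin d) :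
    (Matrix.single a b c * M) p q = if p = a then c * M b q else 0 := by
  by_cases h : p = a
  · subst h; simp
  · simp [h]

theorem mX_mul (M : Matrix (Fin d) (Fin d) ℝ) (p q : Fin d) :
    (mX i j * M) p q = (if p = i then 2 * M i q else 0) + (if p = j then M j q else 0) := by
  rw [mX, Matrix.add_mul, Matrix.add_apply, single_mul_entry, single_mul_entry, one_mul]

theorem mY_mul (M : Matrix (Fin d) (Fin d) ℝ) (p q : Fin d) :
    (mY i j * M) p q = if p = i then 2 * M j q else 0 := by
  rw [mY, single_mul_entry]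

theorem mK_mul (M : Matrix (Fin d) (Fin d) ℝ) (p q : Fin d) :
    (mK i j * M) p q = if p = j then M i q + M j q else 0 := by
  rw [mK, Matrix.add_mul, Matrix.add_apply, single_mul_entry, single_mul_entry, one_mul, one_mul]
  split_ifs <;> simp

/-- Entry bounds give norm bounds. -/
theorem norm_le_entries (N : Seminorm ℝ (Matrix (Fin d) (Fin d) ℝ)) (M : Matrix (Fin d) (Fin d) ℝ)
    (c : ℝ) (h : ∀ p q, |M p q| ≤ c) :
    N M ≤ c * ∑ p : Fin d, ∑ q : Fin d, N (Matrix.single p q (1 : ℝ)) := by
  conv_lhs => rw [Matrix.matrix_eq_sum_single M]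
  refine (Finset.le_sum_of_subadditive N (map_zero N).le (map_add_le_add N) _ _).trans ?_
  rw [Finset.mul_sum]
  refine Finset.sum_le_sum fun p _ => ?_
  refine (Finset.le_sum_of_subadditive N (map_zero N).le (map_add_le_add N) _ _).trans ?_
  rw [Finset.mul_sum]
  refine Finset.sum_le_sum fun q _ => ?_
  have : Matrix.single p q (M p q) = (M p q) • (Matrix.single p q (1 : ℝ)) := by
    rw [Matrix.smul_single]; simp
  rw [this, map_smul_eq_mul, Real.norm_eq_abs]
  exact mul_le_mul_of_nonneg_right (h p q) (apply_nonneg N _)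

/-- In finite dimension a linear functional is bounded for every norm. -/
theorem functional_bound {E : Type} [AddCommGroup E] [Module ℝ E] [FiniteDimensional ℝ E]
    (N : Seminorm ℝ E) (hN : ∀ x, N x = 0 → x = 0) (f : E →ₗ[ℝ] ℝ) :
    ∃ K : ℝ, 0 ≤ K ∧ ∀ x : E, |f x| ≤ K * N x := by
  let G : AddGroupNorm E := { N.toAddGroupSeminorm with eq_zero_of_map_eq_zero' := hN }
  let i1 : NormedAddCommGroup E := G.toNormedAddCommGroup
  let i2 : NormedSpace ℝ E :=
    { norm_smul_le := fun a b => le_of_eq (map_smul_eq_mul N a b) }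
  let F : E →L[ℝ] ℝ := LinearMap.toContinuousLinearMap f
  exact ⟨‖F‖, norm_nonneg _, fun M => F.le_opNorm M⟩

theorem le_norm_entry (N : Seminorm ℝ (Matrix (Fin d) (Fin d) ℝ)) (hN : ∀ M, N M = 0 → M = 0)
    (p q : Fin d) : ∃ K : ℝ, 0 ≤ K ∧ ∀ M : Matrix (Fin d) (Fin d) ℝ, |M p q| ≤ K * N M :=
  functional_bound N hN
    { toFun := fun M => M p q, map_add' := fun _ _ => rfl, map_smul' := fun _ _ => rfl }

/-- A sequence that takes only finitely many values up to some index and then vanishes is
bounded. -/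
theorem bounded_of_eventually_zero (N : Seminorm ℝ (Matrix (Fin d) (Fin d) ℝ))
    (Q : ℕ → Matrix (Fin d) (Fin d) ℝ) (m : ℕ) (h : ∀ n, m ≤ n → Q n = 0) :
    ∃ C : ℝ, ∀ n, 1 ≤ n → N (Q n) ≤ C := by
  refine ⟨∑ n ∈ Finset.range m, N (Q n), fun n _ => ?_⟩
  by_cases hn : n < m
  · exact Finset.single_le_sum (f := fun n => N (Q n)) (fun k _ => apply_nonneg N _)
      (Finset.mem_range.2 hn)
  · rw [h n (by omega), map_zero]
    exact Finset.sum_nonneg fun k _ => apply_nonneg N _

variable {i j}

/-- Condition (H) holds for the counterexample. -/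
theorem condH (hij : i ≠ j) (N : Seminorm ℝ (Matrix (Fin d) (Fin d) ℝ)) :
    CondH N {mX i j, mY i j} {1, mK i j} := by
  classical
  intro A hA
  by_cases hfin : ∃ m, ∀ n, m ≤ n → A n = mX i j
  · -- finitely many `Y`: always use `K`
    obtain ⟨m, hm⟩ := hfin
    refine ⟨fun _ => mK i j, fun _ => by simp, ?_⟩
    -- entries are bounded by `2 ^ (min n m + 1)`
    have key : ∀ n, ∀ q, |prodAB A (fun _ => mK i j) n i q| + |prodAB A (fun _ => mK i j) n j q| ≤
          2 ^ (min n m + 1) ∧ (1 ≤ n → ∀ p, p ≠ i → p ≠ j → prodAB A (fun _ => mK i j) n p q = 0) := by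
      intro n
      induction n with
      | zero =>
        intro q
        refine ⟨?_, fun h => by omega⟩
        have e1 : |(1 : Matrix (Fin d) (Fin d) ℝ) i q| ≤ 1 := by
          rw [Matrix.one_apply]; split_ifs <;> simp
        have e2 : |(1 : Matrix (Fin d) (Fin d) ℝ) j q| ≤ 1 := by
          rw [Matrix.one_apply]; split_ifs <;> simp
        simp only [prodAB]
        norm_num
        linarith
      | succ n ih =>
        intro q
        obtain ⟨h1, -⟩ := ih q
        have hK : ∀ p, (mK i j * prodAB A (fun _ => mK i j) n) p q =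
            if p = j then prodAB A (fun _ => mK i j) n i q + prodAB A (fun _ => mK i j) n j q
            else 0 := fun p => mK_mul i j _ p q
        have hab := abs_add_le (prodAB A (fun _ => mK i j) n i q) (prodAB A (fun _ => mK i j) n j q)
        rcases hA n with h | h
        · -- letter `X`
          have e : ∀ p, prodAB A (fun _ => mK i j) (n + 1) p q =
              if p = j then prodAB A (fun _ => mK i j) n i q + prodAB A (fun _ => mK i j) n j q
              else 0 := by
            intro p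
            show (A n * mK i j * prodAB A (fun _ => mK i j) n) p q = _
            rw [h, Matrix.mul_assoc, mX_mul, hK, hK, if_neg hij, if_pos rfl]
            by_cases hp : p = i
            · subst hp; simp [hij]
            · simp [hp]
          refine ⟨?_, fun _ p hp1 hp2 => by rw [e, if_neg hp2]⟩
          rw [e, e, if_neg hij, if_pos rfl, abs_zero, zero_add]
          refine (hab.trans h1).trans ?_
          exact pow_le_pow_right₀ (by norm_num) (by omega)
        · -- letter `Y`
          have e : ∀ p, prodAB A (fun _ => mK i j) (n + 1) p q =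
              if p = i then 2 * (prodAB A (fun _ => mK i j) n i q + prodAB A (fun _ => mK i j) n j q)
              else 0 := by
            intro p
            show (A n * mK i j * prodAB A (fun _ => mK i j) n) p q = _
            rw [h, Matrix.mul_assoc, mY_mul, hK, if_pos rfl]
          have hnm : n < m ∨ mX i j = mY i j := by
            by_contra hcon
            push Not at hcon
            exact hcon.2 ((hm n hcon.1).symm.trans h)
          have hXY : mX i j ≠ mY i j := by
            intro hXY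
            have := congrFun (congrFun hXY j) j
            simp [mX, mY, Matrix.single, Matrix.of_apply, hij] at this
          have hn : n < m := by tauto
          refine ⟨?_, fun _ p hp1 hp2 => by rw [e, if_neg hp1]⟩
          rw [e, e, if_pos rfl, if_neg hij.symm, abs_zero, add_zero, abs_mul, abs_two]
          have : min (n + 1) m + 1 = (min n m + 1) + 1 := by omega
          rw [this, pow_succ]
          linarith
    refine ⟨_, fun n hn => norm_le_entries N _ (2 ^ (m + 1)) ?_⟩
    intro p q
    have hpow : (2 : ℝ) ^ (min n m + 1) ≤ 2 ^ (m + 1) := pow_le_pow_right₀ (by norm_num) (by omega)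
    obtain ⟨h1, h2⟩ := key n q
    by_cases hp1 : p = i
    · subst hp1
      linarith [abs_nonneg (prodAB A (fun _ => mK p j) n j q)]
    · by_cases hp2 : p = j
      · subst hp2
        linarith [abs_nonneg (prodAB A (fun _ => mK i p) n i q)]
      · rw [h2 hn p hp1 hp2, abs_zero]; positivity
  · -- infinitely many `Y`
    push Not at hfin
    obtain ⟨m1, -, hm1⟩ := hfin 0
    obtain ⟨m2, hm2', hm2⟩ := hfin (m1 + 1)
    have hY1 : A m1 = mY i j := (hA m1).resolve_left hm1
    have hY2 : A m2 = mY i j := (hA m2).resolve_left hm2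
    refine ⟨fun _ => 1, fun _ => by simp, bounded_of_eventually_zero N _ (m2 + 1) ?_⟩
    have hrow : ∀ n, m1 + 1 ≤ n → ∀ q, prodAB A (fun _ => 1) n j q = 0 := by
      intro n hn
      induction n, hn using Nat.le_induction with
      | base =>
        intro q
        show (A m1 * (1 : Matrix (Fin d) (Fin d) ℝ) * prodAB A (fun _ => 1) m1) j q = 0
        rw [hY1, Matrix.mul_one, mY_mul, if_neg hij.symm]
      | succ n hn ih =>
        intro q
        show (A n * (1 : Matrix (Fin d) (Fin d) ℝ) * prodAB A (fun _ => 1) n) j q = 0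
        rcases hA n with h | h
        · rw [h, Matrix.mul_one, mX_mul, if_neg hij.symm, if_pos rfl, ih q, add_zero]
        · rw [h, Matrix.mul_one, mY_mul, if_neg hij.symm]
    intro n hn
    induction n, hn using Nat.le_induction with
    | base =>
      ext p q
      show (A m2 * (1 : Matrix (Fin d) (Fin d) ℝ) * prodAB A (fun _ => 1) m2) p q = 0
      rw [hY2, Matrix.mul_one, mY_mul, hrow m2 hm2' q]
      simp
    | succ n hn ih =>
      show A n * (1 : Matrix (Fin d) (Fin d) ℝ) * prodAB A (fun _ => 1) n = 0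
      rw [ih, Matrix.mul_zero]

/-- The uniform bound fails for the counterexample. -/
theorem not_uniform (hij : i ≠ j) (N : Seminorm ℝ (Matrix (Fin d) (Fin d) ℝ))
    (hN : ∀ M, N M = 0 → M = 0) : ¬ UniformBound N {mX i j, mY i j} {1, mK i j} := by
  classical
  rintro ⟨C, hC, hall⟩
  obtain ⟨K1, hK1, hK1'⟩ := le_norm_entry N hN i j
  obtain ⟨K2, hK2, hK2'⟩ := le_norm_entry N hN j j
  obtain ⟨D, hD⟩ : ∃ D : ℝ, D = (K1 + K2) * C := ⟨_, rfl⟩
  obtain ⟨l, hl⟩ := pow_unbounded_of_one_lt D (one_lt_two : (1 : ℝ) < 2)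
  obtain ⟨B, hB, hbd⟩ := hall (fun n => if (l + 1) ∣ (n + 1) then mY i j else mX i j)
    (fun n => by split_ifs <;> simp)
  obtain ⟨A, hAdef⟩ : ∃ A : ℕ → Matrix (Fin d) (Fin d) ℝ,
    A = fun n => if (l + 1) ∣ (n + 1) then mY i j else mX i j := ⟨_, rfl⟩
  rw [← hAdef] at hbd
  obtain ⟨u, hu⟩ : ∃ u : ℕ → ℝ, u = fun n => prodAB A B n i j := ⟨_, rfl⟩
  obtain ⟨w, hw⟩ : ∃ w : ℕ → ℝ, w = fun n => prodAB A B n j j := ⟨_, rfl⟩
  have hub : ∀ n, 1 ≤ n → u n ≤ D := by
    intro n hn
    rw [hu, hD]
    have h1 := hK1' (prodAB A B n)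
    have h2 := hbd n hn
    have h3 : K1 * N (prodAB A B n) ≤ K1 * C := mul_le_mul_of_nonneg_left h2 hK1
    have h4 := le_abs_self (prodAB A B n i j)
    have h5 : 0 ≤ K2 * C := by positivity
    simp only
    linarith
  have hwb : ∀ n, 1 ≤ n → w n ≤ D := by
    intro n hn
    rw [hw, hD]
    have h1 := hK2' (prodAB A B n)
    have h2 := hbd n hn
    have h3 : K2 * N (prodAB A B n) ≤ K2 * C := mul_le_mul_of_nonneg_left h2 hK2
    have h4 := le_abs_self (prodAB A B n j j)
    have h5 : 0 ≤ K1 * C := by positivity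
    simp only
    linarith
  -- one step with the letter `X`
  have stepX : ∀ n, A n = mX i j → (u (n + 1) = 2 * u n ∧ w (n + 1) = w n) ∨
      (u (n + 1) = 0 ∧ w (n + 1) = u n + w n) := by
    intro n hn
    rw [hu, hw]
    rcases hB n with h | h
    · left
      constructor
      · show (A n * B n * prodAB A B n) i j = _
        rw [hn, h, Matrix.mul_one, mX_mul, if_pos rfl, if_neg hij, add_zero]
      · show (A n * B n * prodAB A B n) j j = _
        rw [hn, h, Matrix.mul_one, mX_mul, if_neg hij.symm, if_pos rfl, zero_add]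
    · right
      constructor
      · show (A n * B n * prodAB A B n) i j = _
        rw [hn, h, Matrix.mul_assoc, mX_mul, if_pos rfl, if_neg hij, mK_mul, if_neg hij]
        ring
      · show (A n * B n * prodAB A B n) j j = _
        rw [hn, h, Matrix.mul_assoc, mX_mul, if_neg hij.symm, if_pos rfl, mK_mul, if_pos rfl]
        ring
  -- one step with the letter `Y`
  have stepY : ∀ n, A n = mY i j → (u (n + 1) = 2 * w n ∨ u (n + 1) = 2 * (u n + w n)) ∧
      w (n + 1) = 0 := by
    intro n hn
    rw [hu, hw]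
    rcases hB n with h | h
    · refine ⟨Or.inl ?_, ?_⟩
      · show (A n * B n * prodAB A B n) i j = _
        rw [hn, h, Matrix.mul_one, mY_mul, if_pos rfl]
      · show (A n * B n * prodAB A B n) j j = _
        rw [hn, h, Matrix.mul_one, mY_mul, if_neg hij.symm]
    · refine ⟨Or.inr ?_, ?_⟩
      · show (A n * B n * prodAB A B n) i j = _
        rw [hn, h, Matrix.mul_assoc, mY_mul, if_pos rfl, mK_mul, if_pos rfl]
      · show (A n * B n * prodAB A B n) j j = _
        rw [hn, h, Matrix.mul_assoc, mY_mul, if_neg hij.symm]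
  -- inside a block
  have block : ∀ k, 0 ≤ u (k * (l + 1)) → 0 ≤ w (k * (l + 1)) → ∀ t, t ≤ l →
      (u (k * (l + 1) + t) = 2 ^ t * u (k * (l + 1)) ∧ w (k * (l + 1) + t) = w (k * (l + 1))) ∨
      (u (k * (l + 1) + t) = 0 ∧ u (k * (l + 1)) + w (k * (l + 1)) ≤ w (k * (l + 1) + t)) := by
    intro k hu0 hw0 t
    induction t with
    | zero => intro _; left; simp
    | succ t ih =>
      intro ht
      have hX : A (k * (l + 1) + t) = mX i j := by
        rw [hAdef]
        simp only
        rw [if_neg]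
        intro hdvd
        have h1 : (l + 1) ∣ k * (l + 1) := Dvd.intro_left k rfl
        have h2 : (l + 1) ∣ t + 1 := by
          have : k * (l + 1) + t + 1 = k * (l + 1) + (t + 1) := by ring
          rw [this] at hdvd
          exact (Nat.dvd_add_right h1).1 hdvd
        have h3 := Nat.le_of_dvd (by omega) h2
        omega
      have hp : (1 : ℝ) ≤ 2 ^ t := one_le_pow₀ (by norm_num)
      rcases stepX _ hX with ⟨h1, h2⟩ | ⟨h1, h2⟩
      · rcases ih (by omega) with ⟨h3, h4⟩ | ⟨h3, h4⟩
        · left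
          refine ⟨?_, ?_⟩
          · rw [← add_assoc, h1, h3, pow_succ]; ring
          · rw [← add_assoc, h2, h4]
        · right
          refine ⟨?_, ?_⟩
          · rw [← add_assoc, h1, h3, mul_zero]
          · rw [← add_assoc, h2]; exact h4
      · right
        refine ⟨by rw [← add_assoc, h1], ?_⟩
        rw [← add_assoc, h2]
        rcases ih (by omega) with ⟨h3, h4⟩ | ⟨h3, h4⟩
        · rw [h3, h4]
          nlinarith
        · rw [h3, zero_add]; exact h4
  -- block starts
  have main : ∀ k, (u (k * (l + 1)) = 0 ∨ 1 ≤ u (k * (l + 1))) ∧ 0 ≤ w (k * (l + 1)) ∧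
      2 ^ k ≤ u (k * (l + 1)) + w (k * (l + 1)) := by
    intro k
    induction k with
    | zero =>
      have h0 : u 0 = 0 := by rw [hu]; show (1 : Matrix (Fin d) (Fin d) ℝ) i j = 0; simp [hij]
      have h1 : w 0 = 1 := by rw [hw]; show (1 : Matrix (Fin d) (Fin d) ℝ) j j = 1; simp
      simp [h0, h1]
    | succ k ih =>
      obtain ⟨h1, h2, h3⟩ := ih
      have hu0 : 0 ≤ u (k * (l + 1)) := by rcases h1 with h | h <;> linarith
      have hY : A (k * (l + 1) + l) = mY i j := by
        rw [hAdef]
        simp only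
        rw [if_pos]
        exact ⟨k + 1, by ring⟩
      have hend : u (k * (l + 1) + l) = 0 ∧
          u (k * (l + 1)) + w (k * (l + 1)) ≤ w (k * (l + 1) + l) := by
        rcases block k hu0 h2 l le_rfl with ⟨h4, h5⟩ | h4
        · rcases h1 with h1 | h1
          · rw [h4, h5, h1, mul_zero, zero_add]; exact ⟨rfl, le_rfl⟩
          · exfalso
            have hp : (1 : ℝ) ≤ 2 ^ l := one_le_pow₀ (by norm_num)
            by_cases hn : 1 ≤ k * (l + 1) + l
            · have h6 := hub _ hn
              rw [h4] at h6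
              nlinarith
            · have hk : k = 0 := by
                rcases Nat.eq_zero_or_pos k with h | h
                · exact h
                · exfalso; apply hn; nlinarith
              have h0 : u 0 = 0 := by
                rw [hu]; show (1 : Matrix (Fin d) (Fin d) ℝ) i j = 0; simp [hij]
              rw [hk, zero_mul, h0] at h1
              linarith
        · exact h4
      have he : (k + 1) * (l + 1) = k * (l + 1) + l + 1 := by ring
      rw [he]
      obtain ⟨h6, h7⟩ := stepY _ hY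
      have h8 : u (k * (l + 1) + l + 1) = 2 * w (k * (l + 1) + l) := by
        rcases h6 with h | h
        · exact h
        · rw [h, hend.1, zero_add]
      have hp : (1 : ℝ) ≤ 2 ^ k := one_le_pow₀ (by norm_num)
      rw [h7, h8, pow_succ]
      refine ⟨Or.inr ?_, le_rfl, ?_⟩
      · linarith [hend.2]
      · linarith [hend.2]
  obtain ⟨k, hk⟩ := pow_unbounded_of_one_lt (2 * D) (one_lt_two : (1 : ℝ) < 2)
  obtain ⟨-, -, h3⟩ := main (k + 1)
  have h4 := hub ((k + 1) * (l + 1)) (by nlinarith)
  have h5 := hwb ((k + 1) * (l + 1)) (by nlinarith)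
  rw [pow_succ] at h3
  have hp : (1 : ℝ) ≤ 2 ^ k := one_le_pow₀ (by norm_num)
  linarith

end Counterexample

/-- For `1 × 1` matrices the assertion of Q1 is true. -/
theorem dim_one (N : Seminorm ℝ (Matrix (Fin 1) (Fin 1) ℝ)) (hN : ∀ M, N M = 0 → M = 0)
    (SA SB : Set (Matrix (Fin 1) (Fin 1) ℝ)) (hA : SA.Finite) (hB : SB.Finite)
    (hA' : SA.Nonempty) (hB' : SB.Nonempty) (h : CondH N SA SB) : UniformBound N SA SB := by
  obtain ⟨a, ha, hmax⟩ := Set.exists_max_image SA (fun M => |M 0 0|) hA hA'
  obtain ⟨b, hb, hmin⟩ := Set.exists_min_image SB (fun M => |M 0 0|) hB hB'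
  have hentry : ∀ (A B : ℕ → Matrix (Fin 1) (Fin 1) ℝ) (n : ℕ),
      prodAB A B (n + 1) 0 0 = A n 0 0 * B n 0 0 * prodAB A B n 0 0 := by
    intro A B n
    show (A n * B n * prodAB A B n) 0 0 = _
    simp [Matrix.mul_apply]
  have hab : |a 0 0| * |b 0 0| ≤ 1 := by
    obtain ⟨B, hB1, C, hC⟩ := h (fun _ => a) (fun _ => ha)
    obtain ⟨K, hK, hK'⟩ := le_norm_entry N hN 0 0
    have h1 : ∀ n, (|a 0 0| * |b 0 0|) ^ n ≤ |prodAB (fun _ => a) B n 0 0| := by
      intro n
      induction n with
      | zero => simp [prodAB]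
      | succ n ih =>
        rw [hentry, abs_mul, abs_mul, pow_succ, mul_comm]
        exact mul_le_mul (mul_le_mul_of_nonneg_left (hmin _ (hB1 n)) (abs_nonneg _)) ih
          (by positivity) (by positivity)
    by_contra hcon
    push Not at hcon
    obtain ⟨n, hn⟩ := pow_unbounded_of_one_lt (K * C) hcon
    have h2 := h1 (n + 1)
    have h3 := hK' (prodAB (fun _ => a) B (n + 1))
    have h4 : K * N (prodAB (fun _ => a) B (n + 1)) ≤ K * C :=
      mul_le_mul_of_nonneg_left (hC (n + 1) (by omega)) hK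
    have h5 : (|a 0 0| * |b 0 0|) ^ n ≤ (|a 0 0| * |b 0 0|) ^ (n + 1) :=
      pow_le_pow_right₀ hcon.le (by omega)
    linarith
  refine ⟨N 1 + 1, by have := apply_nonneg N (1 : Matrix (Fin 1) (Fin 1) ℝ); linarith, ?_⟩
  intro A hA1
  refine ⟨fun _ => b, fun _ => hb, fun n _ => ?_⟩
  have h1 : ∀ n, |prodAB A (fun _ => b) n 0 0| ≤ 1 := by
    intro n
    induction n with
    | zero => simp [prodAB]
    | succ n ih =>
      rw [hentry, abs_mul, abs_mul]
      have h2 : |A n 0 0| * |b 0 0| ≤ 1 :=
        (mul_le_mul_of_nonneg_right (hmax _ (hA1 n)) (abs_nonneg _)).trans hab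
      exact mul_le_one₀ h2 (abs_nonneg _) ih
  have h2 : prodAB A (fun _ => b) n = (prodAB A (fun _ => b) n 0 0) • (1 : Matrix (Fin 1) (Fin 1) ℝ) := by
    ext p q
    rw [Subsingleton.elim p 0, Subsingleton.elim q 0]
    simp
  rw [h2, map_smul_eq_mul, Real.norm_eq_abs]
  have h3 := apply_nonneg N (1 : Matrix (Fin 1) (Fin 1) ℝ)
  have h4 := mul_le_mul_of_nonneg_right (h1 n) h3
  linarith

/-- **Main result.** Let `d ≥ 1` and let `N` be a norm on the real `d × d` matrices. The assertion
of Q1 (for all finite nonempty sets `𝒜`, `ℬ` of `d × d` matrices condition (H) implies the uniform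
bound) holds if and only if `d = 1`; so it fails for every `d ≥ 2`. -/
theorem result (d : ℕ) (hd : 1 ≤ d) (N : Seminorm ℝ (Matrix (Fin d) (Fin d) ℝ))
    (hN : ∀ M, N M = 0 → M = 0) :
    (∀ SA SB : Set (Matrix (Fin d) (Fin d) ℝ), SA.Finite → SB.Finite → SA.Nonempty → SB.Nonempty →
      CondH N SA SB → UniformBound N SA SB) ↔ d = 1 := by
  constructor
  · intro h
    by_contra hd1
    have hd2 : 2 ≤ d := by omega
    obtain ⟨i, j, hij⟩ : ∃ i j : Fin d, i ≠ j :=
      ⟨⟨0, by omega⟩, ⟨1, by omega⟩, by simp [Fin.ext_iff]⟩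
    exact not_uniform hij N hN (h {mX i j, mY i j} {1, mK i j} (Set.toFinite _) (Set.toFinite _)
      ⟨_, Or.inl rfl⟩ ⟨_, Or.inl rfl⟩ (condH hij N))
  · rintro rfl SA SB hA hB hA' hB' h
    exact dim_one N hN SA SB hA hB hA' hB' h

end Pool.Agent.Results.MP_8c8deb_an.NotUniform
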